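import Pool.Agent.helper81.PJ.Spec

set_option autoImplicit false

open Finset

namespace Pool.Agent.PJ

open Pool.Agent.PY2

theorem MAX_Qd_nonneg (k n : ℕ) (c : ℕ → ℂ) : 0 ≤ Qd k n c := by
  unfold Qd
  exact Finset.sum_nonneg fun l _ => Finset.sum_nonneg fun i _ => by positivity

theorem MAX_block (k n : ℕ) (c : ℕ → ℂ) (hk : 0 < k) (l i : ℕ) (hl : l ≤ n) (hi : i < 2 ^ (n - l)) :
    ‖∑ v ∈ range (2 ^ l), c (i * 2 ^ l + v)‖ ≤ Qd k n c ^ (1 / (2 * (k : ℝ))) := by
  have h1 : ‖∑ v ∈ range (2 ^ l), c (i * 2 ^ l + v)‖ ^ (2 * k) ≤ Qd k n c := by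
    unfold Qd
    calc ‖∑ v ∈ range (2 ^ l), c (i * 2 ^ l + v)‖ ^ (2 * k)
        ≤ ∑ i ∈ range (2 ^ (n - l)), ‖∑ v ∈ range (2 ^ l), c (i * 2 ^ l + v)‖ ^ (2 * k) :=
          Finset.single_le_sum (f := fun i => ‖∑ v ∈ range (2 ^ l), c (i * 2 ^ l + v)‖ ^ (2 * k))
            (fun i _ => by positivity) (Finset.mem_range.2 hi)
      _ ≤ _ := Finset.single_le_sum
            (f := fun l => ∑ i ∈ range (2 ^ (n - l)), ‖∑ v ∈ range (2 ^ l), c (i * 2 ^ l + v)‖ ^ (2 * k))
            (fun l _ => Finset.sum_nonneg fun i _ => by positivity)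
            (Finset.mem_range.2 (Nat.lt_succ_of_le hl))
  have h2 : 1 / (2 * (k : ℝ)) = (((2 * k : ℕ) : ℝ))⁻¹ := by push_cast; rw [one_div]
  rw [h2]
  calc ‖∑ v ∈ range (2 ^ l), c (i * 2 ^ l + v)‖
      = (‖∑ v ∈ range (2 ^ l), c (i * 2 ^ l + v)‖ ^ (2 * k)) ^ (((2 * k : ℕ) : ℝ))⁻¹ :=
        (Real.pow_rpow_inv_natCast (norm_nonneg _) (by omega)).symm
    _ ≤ _ := Real.rpow_le_rpow (by positivity) h1 (by positivity)

theorem MAX_init (k n : ℕ) (c : ℕ → ℂ) (hk : 0 < k) (m : ℕ) (hm : m ≤ n) (q : ℕ) (hq : q ≤ 2 ^ m) :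
    ‖∑ v ∈ range (q * 2 ^ (n - m)), c v‖ ≤ ((m : ℝ) + 1) * Qd k n c ^ (1 / (2 * (k : ℝ))) := by
  set M : ℝ := Qd k n c ^ (1 / (2 * (k : ℝ))) with hM
  have hM0 : 0 ≤ M := Real.rpow_nonneg (MAX_Qd_nonneg k n c) _
  induction m generalizing q with
  | zero =>
    have hq' : q = 0 ∨ q = 1 := by
      rw [pow_zero] at hq
      omega
    rcases hq' with rfl | rfl
    · rw [zero_mul, Finset.range_zero, Finset.sum_empty, norm_zero]
      positivity
    · have h1 := MAX_block k n c hk n 0 le_rfl (by simp)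
      rw [← hM] at h1
      simp only [zero_mul, zero_add] at h1
      rw [one_mul, Nat.sub_zero]
      simpa using h1
  | succ m ih =>
    have hl : n - m = (n - (m + 1)) + 1 := by omega
    set l := n - (m + 1) with hld
    have hpow : 2 ^ (n - m) = 2 * 2 ^ l := by rw [hl, pow_succ]; ring
    have hnl : n - l = m + 1 := by omega
    have hq2 : q / 2 ≤ 2 ^ m := by
      rw [pow_succ] at hq
      omega
    have h1 := ih (by omega) (q / 2) hq2
    rw [hpow] at h1
    rcases Nat.mod_two_eq_zero_or_one q with h0 | h0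
    · have h2 : q / 2 * (2 * 2 ^ l) = q * 2 ^ l := by
        have : q = 2 * (q / 2) := by omega
        nth_rewrite 2 [this]
        ring
      rw [h2] at h1
      refine h1.trans ?_
      refine mul_le_mul_of_nonneg_right ?_ hM0
      push_cast
      linarith
    · have h2 : q * 2 ^ l = q / 2 * (2 * 2 ^ l) + 2 ^ l := by
        have : q = 2 * (q / 2) + 1 := by omega
        nth_rewrite 1 [this]
        ring
      rw [h2, Finset.sum_range_add]
      have h3 := MAX_block k n c hk l (2 * (q / 2)) (by omega) (by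
        rw [hnl]
        omega)
      have h4 : q / 2 * (2 * 2 ^ l) = 2 * (q / 2) * 2 ^ l := by ring
      rw [← hM] at h3
      calc ‖∑ v ∈ range (q / 2 * (2 * 2 ^ l)), c v + ∑ v ∈ range (2 ^ l), c (q / 2 * (2 * 2 ^ l) + v)‖
          ≤ ‖∑ v ∈ range (q / 2 * (2 * 2 ^ l)), c v‖ +
            ‖∑ v ∈ range (2 ^ l), c (q / 2 * (2 * 2 ^ l) + v)‖ := norm_add_le _ _
        _ ≤ ((m : ℝ) + 1) * M + M := by
            refine add_le_add h1 ?_
            rw [h4]
            exact h3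
        _ = (((m + 1 : ℕ) : ℝ) + 1) * M := by push_cast; ring

theorem MAX : MAX_stmt := by
  intro k n c hk
  have hM0 : 0 ≤ Qd k n c ^ (1 / (2 * (k : ℝ))) := Real.rpow_nonneg (MAX_Qd_nonneg k n c) _
  refine ⟨?_, ?_⟩
  · unfold mj
    positivity
  · intro S hS hconv
    have hinit : ∀ v, v ≤ 2 ^ n → ‖∑ w ∈ range v, c w‖ ≤
        ((n : ℝ) + 1) * Qd k n c ^ (1 / (2 * (k : ℝ))) := by
      intro v hv
      have h := MAX_init k n c hk n le_rfl v hv
      rwa [Nat.sub_self, pow_zero, mul_one] at h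
    rcases S.eq_empty_or_nonempty with rfl | hne
    · rw [Finset.sum_empty, norm_zero]
      unfold mj
      positivity
    · have h1 : S = Ico (S.min' hne) (S.max' hne + 1) := by
        ext v
        rw [Finset.mem_Ico]
        constructor
        · intro hv
          exact ⟨S.min'_le v hv, Nat.lt_succ_of_le (S.le_max' v hv)⟩
        · rintro ⟨h2, h3⟩
          exact hconv _ (S.min'_mem hne) _ (S.max'_mem hne) v h2 (Nat.lt_succ_iff.1 h3)
      have h2 : S.min' hne ≤ S.max' hne + 1 := (S.min'_le _ (S.max'_mem hne)).trans (Nat.le_succ _)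
      have h3 : S.max' hne + 1 ≤ 2 ^ n := Finset.mem_range.1 (hS (S.max'_mem hne))
      have h4 : ∑ v ∈ S, c v = ∑ v ∈ range (S.max' hne + 1), c v - ∑ v ∈ range (S.min' hne), c v := by
        rw [← Finset.sum_Ico_eq_sub c h2, ← h1]
      rw [h4]
      unfold mj
      calc ‖∑ v ∈ range (S.max' hne + 1), c v - ∑ v ∈ range (S.min' hne), c v‖
          ≤ ‖∑ v ∈ range (S.max' hne + 1), c v‖ + ‖∑ v ∈ range (S.min' hne), c v‖ := norm_sub_le _ _
        _ ≤ ((n : ℝ) + 1) * Qd k n c ^ (1 / (2 * (k : ℝ))) +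
            ((n : ℝ) + 1) * Qd k n c ^ (1 / (2 * (k : ℝ))) :=
            add_le_add (hinit _ h3) (hinit _ (h2.trans h3))
        _ = 2 * ((n : ℝ) + 1) * Qd k n c ^ (1 / (2 * (k : ℝ))) := by ring

end Pool.Agent.PJ
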